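import Pool.Agent.Helper69.MC.StB

set_option autoImplicit false

open Set Topology Filter MeasureTheory
open Pool.Agent.Helper31.CY Pool.Agent.Helper69.MF Pool.Agent.Helper69.MC

namespace Pool.Agent.Helper44.MC

private theorem slabOpen (h : ℝ) : IsOpen (Sl h) := by
  have h2 : Continuous fun x : E3 => x 2 := by fun_prop
  exact (isOpen_lt continuous_const h2).inter (isOpen_lt h2 continuous_const)

theorem hCPT : StCPT := by
  intro h S hS
  have hO : IsOpen (Sl h \ S) := (slabOpen h).sdiff hS
  have key : ∀ B, Cmp h S B → IsOpen B ∧ IsPathConnected B ∧ B ⊆ Sl h \ S := by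
    rintro B ⟨x, hx, rfl⟩
    have hop : IsOpen (connectedComponentIn (Sl h \ S) x) := hO.connectedComponentIn
    refine ⟨hop, ?_, connectedComponentIn_subset _ _⟩
    have hc : IsConnected (connectedComponentIn (Sl h \ S) x) :=
      isConnected_connectedComponentIn_iff.2 hx
    exact hop.isConnected_iff_isPathConnected.1 hc
  have big : ∀ B, Cmp h S B → ∀ C : Set E3, IsPreconnected C → C ⊆ Sl h \ S →
      (B ∩ C).Nonempty → C ⊆ B := by
    rintro B ⟨x, hx, rfl⟩ C hC hCs ⟨y, hyB, hyC⟩
    have e : connectedComponentIn (Sl h \ S) x = connectedComponentIn (Sl h \ S) y :=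
      connectedComponentIn_eq hyB
    rw [e]
    exact hC.subset_connectedComponentIn hyC hCs
  have uniq : ∀ B B', Cmp h S B → Cmp h S B' → (B ∩ B').Nonempty → B = B' := by
    intro B B' hB hB' hn
    have k1 := key B hB
    have k2 := key B' hB'
    apply Subset.antisymm
    · refine big B' hB' B k1.2.1.isConnected.isPreconnected k1.2.2 ?_
      rw [inter_comm]; exact hn
    · exact big B hB B' k2.2.1.isConnected.isPreconnected k2.2.2 hn
  have ex : ∀ x ∈ Sl h \ S, ∃ B, Cmp h S B ∧ x ∈ B := fun x hx =>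
    ⟨connectedComponentIn (Sl h \ S) x, ⟨x, hx, rfl⟩, mem_connectedComponentIn hx⟩
  refine ⟨ex, ?_, uniq, ?_⟩
  · intro B hB
    obtain ⟨k1, k2, k3⟩ := key B hB
    refine ⟨k1, k2, k3, ?_, big B hB⟩
    intro x hx hxh
    by_contra hxS
    obtain ⟨B', hB', hxB'⟩ := ex x ⟨hxh, hxS⟩
    have ho' := (key B' hB').1
    have hcl : x ∈ closure B := hx.1
    have hne : (B' ∩ B).Nonempty := mem_closure_iff.1 hcl B' ho' hxB'
    have e : B' = B := uniq B' B hB' hB hne
    rw [e] at hxB'
    have : x ∉ interior B := hx.2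
    rw [k1.interior_eq] at this
    exact this hxB'
  · intro x y
    constructor
    · intro hj
      have hx : x ∈ Sl h \ S := hj.source_mem
      obtain ⟨B, hB, hxB⟩ := ex x hx
      refine ⟨B, hB, hxB, ?_⟩
      obtain ⟨γ, hγ⟩ := hj
      have hpre : IsPreconnected (range γ) := isPreconnected_range γ.continuous
      have hsub : range γ ⊆ Sl h \ S := by
        rintro _ ⟨t, rfl⟩
        exact hγ t
      have hne : (B ∩ range γ).Nonempty := ⟨x, hxB, ⟨0, γ.source⟩⟩
      exact big B hB (range γ) hpre hsub hne ⟨1, γ.target⟩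
    · rintro ⟨B, hB, hx, hy⟩
      obtain ⟨k1, k2, k3⟩ := key B hB
      exact (k2.joinedIn x hx y hy).mono k3

end Pool.Agent.Helper44.MC
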