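import Mathlib
import Pool.Agent.Helper25.MC.StV
import Pool.Agent.Helper49.MC.StP
import Pool.Agent.Helper44.MC.M_UPC

/-!
# Project MC, part C : the planar data at `κ = 1`
-/

open MeasureTheory Set Finset
open scoped ENNReal

namespace MC

theorem h44_line (x : ℝ) : (fun t : ℝ => (⟨x, t⟩ : ℂ)) =
    fun t : ℝ => (x : ℂ) + (t : ℂ) * Complex.I := by
  funext t
  apply Complex.ext <;> simp

theorem h44_lineD (x t : ℝ) : HasDerivAt (fun t : ℝ => (⟨x, t⟩ : ℂ)) Complex.I t := by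
  rw [h44_line]
  have h4 : HasDerivAt (fun t : ℝ => (t : ℂ)) 1 t := Complex.ofRealCLM.hasDerivAt
  have h5 := (h4.mul_const Complex.I).const_add (x : ℂ)
  rwa [one_mul] at h5

/-- continuity/smoothness at `κ = 1` from the joint statement -/
theorem h44_slice {V : Type*} [NormedAddCommGroup V] [NormedSpace ℝ V] {β : ℝ} (hβ : β < 1)
    {g : ℝ → ℂ → V}
    (h : ContDiffOn ℝ 2 (fun x : ℝ × ℂ => g x.1 x.2) (Set.Ioi β ×ˢ Set.univ)) :
    ContDiff ℝ 2 (g 1) := by
  rw [← contDiffOn_univ]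
  have h1 : ContDiffOn ℝ 2 (fun w : ℂ => ((1 : ℝ), w)) Set.univ :=
    (contDiff_const.prodMk contDiff_id).contDiffOn
  exact h.comp h1 (fun w _ => ⟨hβ, Set.mem_univ _⟩)

theorem PDK (hSM : tPSM) (hBD : tPBD) (hGR : tPGR) (hSL : tPSL) {χ : ℝ → ℝ} {α β : ℝ}
    (hχ : Profile χ α β) : PD (Qk χ 1) (pk χ 1) (Xk χ 1) := by
  obtain ⟨s1, s2, s3, s4⟩ := hSM χ α β hχ
  have c1 := h44_slice hχ.lt1 s1
  have c2 := h44_slice hχ.lt1 s2
  have c4 := h44_slice hχ.lt1 s4
  obtain ⟨l1, l2, l3, l4⟩ := hSL χ α β hχ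
  have hB := hBD χ α β hχ 1 hχ.lt1
  refine ⟨c1.of_le (by norm_num), c2.continuous, c4.continuous, hGR χ α β hχ 1 hχ.lt1,
    fun w => (hB w).1, fun w => (hB w).2.1, fun w => (hB w).2.2.1, ?_, ?_, ?_⟩
  · intro x t
    have := l3 ⟨x, t⟩
    exact this
  · intro x
    have hd : ∀ t : ℝ, HasDerivAt (fun t : ℝ => Qk χ 1 ⟨x, t⟩)
        (fderiv ℝ (Qk χ 1) ⟨x, t⟩ Complex.I) t := by
      intro t
      exact ((c1.differentiable (by norm_num) _).hasFDerivAt).comp_hasDerivAt t (h44_lineD x t)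
    refine antitoneOn_of_deriv_nonpos (convex_Ici 0) ?_ ?_ ?_
    · exact (continuous_iff_continuousAt.2 fun t => (hd t).continuousAt).continuousOn
    · exact fun t _ => (hd t).differentiableAt.differentiableWithinAt
    · intro t ht
      rw [interior_Ici] at ht
      rw [(hd t).deriv]
      have h2 := l2 ⟨x, t⟩
      have ht' : (0 : ℝ) < t := ht
      have h3 : t * fderiv ℝ (Qk χ 1) ⟨x, t⟩ Complex.I ≤ 0 := h2
      by_contra hc
      push Not at hc
      have := mul_pos ht' hc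
      linarith
  · intro w hw
    refine ((hB w).2.2.2.2.2.2 ?_).1
    have h1 : (1 : ℝ) ≤ ‖w‖ := hw.trans (Complex.abs_re_le_norm w)
    have h2 : (1 : ℝ) ≤ ‖w‖ ^ 2 := by nlinarith
    linarith [hχ.lt1]

theorem BADK (hSM : tPSM) (hSL : tPSL) (hGR : tPGR) {χ : ℝ → ℝ} {α β : ℝ}
    (hχ : Profile χ α β) (η : ℝ) (h0 : 0 < η) (h1 : η < 1) :
    ∫⁻ w in {w : ℂ | (Real.pi / 2) / (1 - η) * |(Xk χ 1 w).im| < pk χ 1 w},
      ENNReal.ofReal (pk χ 1 w) ≤ ∫⁻ w : ℂ, ENNReal.ofReal (pbad χ η w) := by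
  obtain ⟨l1, l2, l3, l4⟩ := hSL χ α β hχ
  calc _ ≤ ∫⁻ w in {w : ℂ | (Real.pi / 2) / (1 - η) * |(Xk χ 1 w).im| < pk χ 1 w},
      ENNReal.ofReal (pbad χ η w) := by
        have hsub : ∀ w ∈ {w : ℂ | (Real.pi / 2) / (1 - η) * |(Xk χ 1 w).im| < pk χ 1 w},
            ENNReal.ofReal (pk χ 1 w) ≤ ENNReal.ofReal (pbad χ η w) := by
          intro w hw
          have hw' : (Real.pi / 2) / (1 - η) * |(Xk χ 1 w).im| < pk χ 1 w := hw
          obtain ⟨k1, k2, k3⟩ := l4 η h0 h1 w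
          have hg : fderiv ℝ (Qk χ 1) w Complex.I = - (Xk χ 1 w).im := by
            rw [hGR χ α β hχ 1 hχ.lt1 w Complex.I]
            simp [ip]
          rw [hg, abs_neg] at k3
          have hpos : 0 < pbad χ η w := by linarith
          refine ENNReal.ofReal_le_ofReal ?_
          unfold pbad at hpos ⊢
          split_ifs at hpos ⊢ with hc
          · exact le_refl _
          · exact absurd hpos (lt_irrefl _)
        obtain ⟨s1, s2, s3, s4⟩ := hSM χ α β hχ
        have c2 := h44_slice hχ.lt1 s2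
        have c4 := h44_slice hχ.lt1 s4
        refine setLIntegral_mono' ?_ hsub
        refine (isOpen_lt ?_ c2.continuous).measurableSet
        exact continuous_const.mul (Complex.continuous_im.comp c4.continuous).abs
    _ ≤ _ := setLIntegral_le_lintegral _ _

end MC
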